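import Mathlib

set_option autoImplicit false
set_option linter.unusedSectionVars false

namespace Pool.Agent.Results.MP_f7162b_al.HopfianNotCofinitelyInjective

open LaurentPolynomial

/-- Elements `ψ^i φ^j` of the bicyclic monoid (`φ ψ = 1`). -/
@[ext]
structure Bic where
  i : ℕ
  j : ℕ

instance : Monoid Bic where
  mul a b := ⟨a.i + (b.i - a.j), (a.j - b.i) + b.j⟩
  one := ⟨0, 0⟩
  mul_assoc a b c := by
    show Bic.mk (a.i + (b.i - a.j) + (c.i - ((a.j - b.i) + b.j))) _ = Bic.mk _ _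
    refine Bic.ext ?_ ?_
    · show a.i + (b.i - a.j) + (c.i - ((a.j - b.i) + b.j)) = a.i + (b.i + (c.i - b.j) - a.j)
      omega
    · show ((a.j - b.i) + b.j - c.i) + c.j = (a.j - (b.i + (c.i - b.j))) + ((b.j - c.i) + c.j)
      omega
  one_mul a := by
    refine Bic.ext ?_ ?_
    · show 0 + (a.i - 0) = a.i
      omega
    · show (0 - a.i) + a.j = a.j
      omega
  mul_one a := by
    refine Bic.ext ?_ ?_
    · show a.i + (0 - a.j) = a.i
      omega
    · show (a.j - 0) + 0 = a.j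
      omega

lemma mul_i (a b : Bic) : (a * b).i = a.i + (b.i - a.j) := rfl
lemma mul_j (a b : Bic) : (a * b).j = (a.j - b.i) + b.j := rfl
lemma one_i : (1 : Bic).i = 0 := rfl
lemma one_j : (1 : Bic).j = 0 := rfl

abbrev QB := MonoidAlgebra ℚ Bic

noncomputable def phi : QB := MonoidAlgebra.single ⟨0, 1⟩ 1
noncomputable def psi : QB := MonoidAlgebra.single ⟨1, 0⟩ 1

lemma phi_psi : phi * psi = 1 := by
  unfold phi psi
  rw [MonoidAlgebra.single_mul_single, MonoidAlgebra.one_def]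
  congr 1
  norm_num

lemma psi_phi_ne : 1 - psi * phi ≠ 0 := by
  intro h
  have h1 : (1 : QB) = psi * phi := sub_eq_zero.1 h
  unfold phi psi at h1
  rw [MonoidAlgebra.single_mul_single, MonoidAlgebra.one_def, mul_one] at h1
  have h2 := (MonoidAlgebra.single_left_inj (one_ne_zero (α := ℚ))).1 h1
  have h3 : (1 : Bic).i = ((⟨1, 0⟩ : Bic) * ⟨0, 1⟩).i := by rw [← h2]
  rw [one_i, mul_i] at h3
  simp at h3

/-- the symbol map -/
noncomputable def symF : Bic →* ℚ[T;T⁻¹] where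
  toFun b := T ((b.j : ℤ) - b.i)
  map_one' := by simp [one_i, one_j]
  map_mul' a b := by
    rw [← T_add, mul_i, mul_j]
    congr 1
    omega

noncomputable def sym : QB →ₐ[ℚ] ℚ[T;T⁻¹] := MonoidAlgebra.lift ℚ ℚ[T;T⁻¹] Bic symF

lemma sym_single (b : Bic) (c : ℚ) :
    sym (MonoidAlgebra.single b c) = C c * T ((b.j : ℤ) - b.i) := by
  unfold sym
  rw [MonoidAlgebra.lift_single, LaurentPolynomial.smul_eq_C_mul]
  rfl

noncomputable def two' : ℚˣ := Units.mk0 2 two_ne_zero

noncomputable def ev : ℚ[T;T⁻¹] →+* ℚ := LaurentPolynomial.eval₂ (RingHom.id ℚ) two'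

lemma ev_CT (c : ℚ) (k : ℤ) : ev (C c * T k) = c * 2 ^ k := by
  unfold ev
  rw [LaurentPolynomial.eval₂_C_mul_T]
  simp [two']

noncomputable def rho : QB →+* ℚ := ev.comp sym.toRingHom

lemma rho_eq (x : QB) : rho x = ev (sym x) := rfl

lemma rho_single (b : Bic) (c : ℚ) : rho (MonoidAlgebra.single b c) = c * 2 ^ ((b.j : ℤ) - b.i) := by
  rw [rho_eq, sym_single, ev_CT]

/-- elements with integer coefficients -/
noncomputable def RZ : Subring QB := (MonoidAlgebra.mapRingHom Bic (Int.castRingHom ℚ)).range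

lemma mem_RZ (x : QB) : x ∈ RZ ↔ ∀ b, ∃ n : ℤ, (n : ℚ) = x.coeff b := by
  have h := MonoidAlgebra.range_map (M := Bic) (Int.castRingHom ℚ : ℤ →+ ℚ)
  constructor
  · rintro ⟨y, rfl⟩ b
    exact ⟨y.coeff b, by simp⟩
  · intro hx
    have : x ∈ Set.range (MonoidAlgebra.map (M := Bic) (Int.castRingHom ℚ : ℤ →+ ℚ)) := by
      rw [h]
      intro b
      obtain ⟨n, hn⟩ := hx b
      exact ⟨n, hn⟩
    obtain ⟨y, hy⟩ := this
    exact ⟨y, hy⟩

/-- the ring `R`: integer coefficients and integral value of `rho` -/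
noncomputable def R : Subring QB := RZ ⊓ (Int.castRingHom ℚ).range.comap rho

lemma mem_R (x : QB) : x ∈ R ↔ x ∈ RZ ∧ ∃ n : ℤ, (n : ℚ) = rho x := by
  constructor
  · rintro ⟨h1, n, hn⟩
    exact ⟨h1, n, hn⟩
  · rintro ⟨h1, n, hn⟩
    exact ⟨h1, n, hn⟩

lemma single_mem_RZ (b : Bic) (n : ℤ) : (MonoidAlgebra.single b (n : ℚ) : QB) ∈ RZ :=
  ⟨MonoidAlgebra.single b n, by simp⟩

lemma phi_mem : phi ∈ R := by
  rw [mem_R]
  refine ⟨by simpa [phi] using single_mem_RZ ⟨0, 1⟩ 1, 2, ?_⟩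
  unfold phi
  rw [rho_single]
  norm_num

lemma psi_mem_RZ : psi ∈ RZ := by simpa [psi] using single_mem_RZ ⟨1, 0⟩ 1

lemma rho_psi : rho psi = 1 / 2 := by
  unfold psi
  rw [rho_single]
  norm_num

lemma rho_phi : rho phi = 2 := by
  unfold phi
  rw [rho_single]
  norm_num

lemma two_psi_mem : 2 * psi ∈ R := by
  rw [mem_R]
  refine ⟨mul_mem (ofNat_mem RZ 2) psi_mem_RZ, 1, ?_⟩
  rw [map_mul, rho_psi, map_ofNat]
  norm_num

/-! ### the group -/

/-- the five primes -/
def q : Fin 5 → ℕ := ![3, 5, 7, 11, 13]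

noncomputable def A : Fin 5 → QB := ![1, 0, 1, 1, 1]
noncomputable def Bb : Fin 5 → QB := ![0, 1, 1, phi, 2 * psi]

lemma q_prime : ∀ k, (q k).Prime := by
  intro k
  fin_cases k <;> simp only [q] <;> norm_num

lemma q_inj : ∀ k l, k ≠ l → q k ≠ q l := by decide

lemma q_ne_two : ∀ k, q k ≠ 2 := by decide

lemma A_mem : ∀ k, A k ∈ R := by
  intro k
  fin_cases k
  · exact one_mem R
  · exact zero_mem R
  · exact one_mem R
  · exact one_mem R
  · exact one_mem R

lemma B_mem : ∀ k, Bb k ∈ R := by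
  intro k
  fin_cases k
  · exact zero_mem R
  · exact one_mem R
  · exact one_mem R
  · exact phi_mem
  · exact two_psi_mem

/-- generators -/
noncomputable def gen (k : Fin 5) (m : ℕ) (r : QB) : QB × QB :=
  (((q k : ℚ) ^ m)⁻¹ • (r * A k), ((q k : ℚ) ^ m)⁻¹ • (r * Bb k))

noncomputable def GG : AddSubgroup (QB × QB) :=
  AddSubgroup.closure {x | ∃ k m, ∃ r ∈ R, x = gen k m r}

lemma gen_mem (k : Fin 5) (m : ℕ) {r : QB} (hr : r ∈ R) : gen k m r ∈ GG :=
  AddSubgroup.subset_closure ⟨k, m, r, hr, rfl⟩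

lemma gen_zero (k : Fin 5) (r : QB) : gen k 0 r = (r * A k, r * Bb k) := by
  unfold gen; simp

lemma gen_smul (k : Fin 5) (m : ℕ) (r : QB) : (q k) ^ m • gen k m r = (r * A k, r * Bb k) := by
  have hq : ((q k : ℚ) ^ m) ≠ 0 := pow_ne_zero _ (by exact_mod_cast (q_prime k).ne_zero)
  unfold gen
  refine Prod.ext ?_ ?_
  · show (q k) ^ m • (((q k : ℚ) ^ m)⁻¹ • (r * A k)) = r * A k
    rw [← Nat.cast_smul_eq_nsmul ℚ, smul_smul]
    push_cast
    rw [mul_inv_cancel₀ hq, one_smul]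
  · show (q k) ^ m • (((q k : ℚ) ^ m)⁻¹ • (r * Bb k)) = r * Bb k
    rw [← Nat.cast_smul_eq_nsmul ℚ, smul_smul]
    push_cast
    rw [mul_inv_cancel₀ hq, one_smul]

lemma gen_div (k : Fin 5) (m : ℕ) (r : QB) : (q k) ^ m • gen k m r = gen k 0 r := by
  rw [gen_smul, gen_zero]

/-- linear functionals detecting the lines -/
noncomputable def dd (k : Fin 5) (x : QB × QB) : QB :=
  (![x.2, x.1, x.2 - x.1, x.2 - x.1 * phi, x.2 - x.1 * (2 * psi)] : Fin 5 → QB) k

lemma dd_add (k : Fin 5) (x y : QB × QB) : dd k (x + y) = dd k x + dd k y := by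
  fin_cases k
  · rfl
  · rfl
  · show (x + y).2 - (x + y).1 = (x.2 - x.1) + (y.2 - y.1)
    rw [Prod.fst_add, Prod.snd_add]; abel
  · show (x + y).2 - (x + y).1 * phi = (x.2 - x.1 * phi) + (y.2 - y.1 * phi)
    rw [Prod.fst_add, Prod.snd_add, add_mul]; abel
  · show (x + y).2 - (x + y).1 * (2 * psi) = (x.2 - x.1 * (2 * psi)) + (y.2 - y.1 * (2 * psi))
    rw [Prod.fst_add, Prod.snd_add, add_mul]; abel

lemma dd_smul (k : Fin 5) (c : ℚ) (x : QB × QB) : dd k (c • x) = c • dd k x := by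
  fin_cases k
  · rfl
  · rfl
  · show c • x.2 - c • x.1 = c • (x.2 - x.1)
    rw [smul_sub]
  · show c • x.2 - (c • x.1) * phi = c • (x.2 - x.1 * phi)
    rw [smul_sub, smul_mul_assoc]
  · show c • x.2 - (c • x.1) * (2 * psi) = c • (x.2 - x.1 * (2 * psi))
    rw [smul_sub, smul_mul_assoc]

lemma dd_mem (k : Fin 5) (x : QB × QB) (h1 : x.1 ∈ RZ) (h2 : x.2 ∈ RZ) : dd k x ∈ RZ := by
  fin_cases k
  · exact h2
  · exact h1
  · exact sub_mem h2 h1
  · exact sub_mem h2 (mul_mem h1 ((mem_R _).1 phi_mem).1)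
  · exact sub_mem h2 (mul_mem h1 ((mem_R _).1 two_psi_mem).1)

lemma dd_self (k : Fin 5) (r : QB) : dd k (r * A k, r * Bb k) = 0 := by
  fin_cases k
  · show r * 0 = 0
    rw [mul_zero]
  · show r * 0 = 0
    rw [mul_zero]
  · show r * 1 - r * 1 = 0
    rw [sub_self]
  · show r * phi - (r * 1) * phi = 0
    rw [mul_one, sub_self]
  · show r * (2 * psi) - (r * 1) * (2 * psi) = 0
    rw [mul_one, sub_self]

/-- coefficients integral at the prime `p` -/
def Int' (p : ℕ) (x : QB) : Prop := ∀ b, padicNorm p (x.coeff b) ≤ 1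

lemma int_add {p : ℕ} [Fact p.Prime] {x y : QB} (hx : Int' p x) (hy : Int' p y) :
    Int' p (x + y) := by
  intro b
  rw [MonoidAlgebra.coeff_add, Finsupp.add_apply]
  exact (padicNorm.nonarchimedean).trans (max_le (hx b) (hy b))

lemma int_neg {p : ℕ} {x : QB} (hx : Int' p x) : Int' p (-x) := by
  intro b
  have : (-x).coeff b = -(x.coeff b) := rfl
  rw [this, padicNorm.neg]
  exact hx b

lemma int_RZ {p : ℕ} [Fact p.Prime] {x : QB} (hx : x ∈ RZ) : Int' p x := by
  intro b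
  obtain ⟨n, hn⟩ := (mem_RZ x).1 hx b
  rw [← hn]
  exact padicNorm.of_int n

lemma norm_inv {p l m : ℕ} [Fact p.Prime] (hl : l.Prime) (h : p ≠ l) :
    padicNorm p (((l : ℚ) ^ m)⁻¹) = 1 := by
  have hl1 : padicNorm p (l : ℚ) = 1 := by
    have _ : Fact l.Prime := ⟨hl⟩
    exact padicNorm.padicNorm_of_prime_of_ne h
  have h2 : padicNorm p (((l : ℚ) ^ m)) = 1 := by
    induction m with
    | zero => simp
    | succ m ih => rw [pow_succ, padicNorm.mul, ih, hl1, mul_one]
  have hl0 : ((l : ℚ) ^ m) ≠ 0 := pow_ne_zero _ (by exact_mod_cast hl.ne_zero)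
  have h3 := padicNorm.mul (p := p) ((l : ℚ) ^ m) (((l : ℚ) ^ m)⁻¹)
  rw [mul_inv_cancel₀ hl0, h2, one_mul, padicNorm.one] at h3
  exact h3.symm

lemma int_smul {p : ℕ} [Fact p.Prime] {c : ℚ} (hc : padicNorm p c ≤ 1) {x : QB}
    (hx : Int' p x) : Int' p (c • x) := by
  intro b
  rw [MonoidAlgebra.coeff_smul_apply, smul_eq_mul, padicNorm.mul]
  exact mul_le_one₀ hc (padicNorm.nonneg _) (hx b)

instance factq (k : Fin 5) : Fact (q k).Prime := ⟨q_prime k⟩

lemma dd_int (k : Fin 5) {g : QB × QB} (hg : g ∈ GG) : Int' (q k) (dd k g) := by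
  unfold GG at hg
  induction hg using AddSubgroup.closure_induction with
  | mem x hx =>
    obtain ⟨l, m, r, hr, rfl⟩ := hx
    have h1 : gen l m r = ((q l : ℚ) ^ m)⁻¹ • (r * A l, r * Bb l) := rfl
    rw [h1, dd_smul]
    by_cases hkl : k = l
    · subst hkl
      rw [dd_self, smul_zero]
      intro b
      simp
    · apply int_smul
      · exact (norm_inv (q_prime l) (q_inj k l hkl)).le
      · apply int_RZ
        apply dd_mem
        · exact mul_mem ((mem_R _).1 hr).1 ((mem_R _).1 (A_mem l)).1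
        · exact mul_mem ((mem_R _).1 hr).1 ((mem_R _).1 (B_mem l)).1
  | zero =>
    have : dd k 0 = 0 := by
      have := dd_add k 0 0
      rw [add_zero] at this
      simpa using this
    rw [this]
    intro b
    simp
  | add x y _ _ hx hy =>
    rw [dd_add]
    exact int_add hx hy
  | neg x _ hx =>
    have : dd k (-x) = - dd k x := by
      have h1 := dd_smul k (-1) x
      simpa using h1
    rw [this]
    exact int_neg hx

lemma eq_zero_of_norm {p : ℕ} [hp : Fact p.Prime] {c : ℚ}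
    (h : ∀ n : ℕ, padicNorm p c ≤ ((p : ℚ) ^ n)⁻¹) : c = 0 := by
  apply padicNorm.zero_of_padicNorm_eq_zero (p := p)
  by_contra hne
  have hpos : 0 < padicNorm p c := lt_of_le_of_ne (padicNorm.nonneg _) (Ne.symm hne)
  have hp1 : (1 : ℚ) < p := by exact_mod_cast hp.out.one_lt
  obtain ⟨n, hn⟩ := pow_unbounded_of_one_lt ((padicNorm p c)⁻¹) hp1
  have h1 := h n
  have h2 : ((p : ℚ) ^ n)⁻¹ < padicNorm p c := by
    rw [inv_lt_comm₀ (by positivity) hpos]
    exact hn
  exact absurd h1 (not_le.2 h2)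

lemma norm_pow' (p : ℕ) [Fact p.Prime] (n : ℕ) :
    padicNorm p ((p : ℚ) ^ n) = ((p : ℚ) ^ n)⁻¹ := by
  induction n with
  | zero => simp
  | succ n ih => rw [pow_succ, padicNorm.mul, padicNorm.padicNorm_p_of_prime, ih, mul_inv]

/-- elements divisible by all powers of `q k` lie on the `k`-th line -/
lemma dd_zero_of_div (k : Fin 5) {g : QB × QB}
    (hg : ∀ n : ℕ, ∃ h ∈ GG, (q k) ^ n • h = g) : dd k g = 0 := by
  apply MonoidAlgebra.coeff_injective
  ext b
  show (dd k g).coeff b = 0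
  apply eq_zero_of_norm (p := q k)
  intro n
  obtain ⟨h, hh, rfl⟩ := hg n
  have h1 : (q k) ^ n • h = ((q k : ℚ) ^ n) • h := by
    rw [← Nat.cast_smul_eq_nsmul ℚ]
    push_cast
    rfl
  rw [h1, dd_smul, MonoidAlgebra.coeff_smul_apply, smul_eq_mul, padicNorm.mul]
  rw [norm_pow' (q k) n]
  exact mul_le_of_le_one_right (by positivity) (dd_int k hh b)

/-! ### endomorphisms -/

section endo

variable (s : GG →+ GG)

lemma e_mem (k : Fin 5) {r : QB} (hr : r ∈ R) : (r * A k, r * Bb k) ∈ GG := by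
  rw [← gen_zero]
  exact gen_mem k 0 hr

/-- the basic elements of `G` -/
noncomputable def ee (k : Fin 5) (r : R) : GG := ⟨((r : QB) * A k, (r : QB) * Bb k), e_mem k r.2⟩

lemma dd_s (k : Fin 5) (r : R) : dd k (s (ee k r)).1 = 0 := by
  apply dd_zero_of_div
  intro n
  refine ⟨(s ⟨gen k n r, gen_mem k n r.2⟩).1, (s ⟨gen k n r, gen_mem k n r.2⟩).2, ?_⟩
  have h1 : (q k) ^ n • (⟨gen k n r, gen_mem k n r.2⟩ : GG) = ee k r := by
    apply Subtype.ext
    show (q k) ^ n • gen k n r = _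
    rw [gen_smul]
    rfl
  rw [← h1, map_nsmul]
  rfl

/-- the induced map on the first coordinate -/
noncomputable def S (r : R) : QB := (s (ee 0 r)).1.1

lemma ee0 (r : R) : (ee 0 r).1 = ((r : QB), 0) := by
  show ((r : QB) * 1, (r : QB) * 0) = _
  rw [mul_one, mul_zero]

lemma ee1 (r : R) : (ee 1 r).1 = (0, (r : QB)) := by
  show ((r : QB) * 0, (r : QB) * 1) = _
  rw [mul_one, mul_zero]

lemma s_ee0 (r : R) : (s (ee 0 r)).1 = (S s r, 0) := by
  have h : (s (ee 0 r)).1.2 = 0 := dd_s s 0 r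
  exact Prod.ext rfl h

lemma s_ee1 (r : R) : (s (ee 1 r)).1 = (0, S s r) := by
  have h1 : (s (ee 1 r)).1.1 = 0 := dd_s s 1 r
  have h2 : dd 2 (s (ee 2 r)).1 = 0 := dd_s s 2 r
  have h3 : ee 2 r = ee 0 r + ee 1 r := by
    apply Subtype.ext
    show ((r : QB) * 1, (r : QB) * 1) = (ee 0 r).1 + (ee 1 r).1
    rw [ee0, ee1, Prod.mk_add_mk, mul_one, add_zero, zero_add]
  have h4 : (s (ee 2 r)).1 = (S s r, (s (ee 1 r)).1.2) := by
    rw [h3, map_add]
    show (s (ee 0 r)).1 + (s (ee 1 r)).1 = _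
    rw [s_ee0]
    refine Prod.ext ?_ ?_
    · show S s r + (s (ee 1 r)).1.1 = S s r
      rw [h1, add_zero]
    · show 0 + (s (ee 1 r)).1.2 = _
      rw [zero_add]
  rw [h4] at h2
  have h5 : (s (ee 1 r)).1.2 - S s r = 0 := h2
  exact Prod.ext h1 (sub_eq_zero.1 h5)

lemma S_add (r r' : R) : S s (r + r') = S s r + S s r' := by
  have h : ee 0 (r + r') = ee 0 r + ee 0 r' := by
    apply Subtype.ext
    show (ee 0 (r + r')).1 = (ee 0 r).1 + (ee 0 r').1
    rw [ee0, ee0, ee0, Prod.mk_add_mk, add_zero]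
    rfl
  unfold S
  rw [h, map_add]
  rfl

noncomputable def phiR : R := ⟨phi, phi_mem⟩
noncomputable def psiR : R := ⟨2 * psi, two_psi_mem⟩

lemma S_aux (k : Fin 5) (c : R) (hA : A k = 1) (hB : Bb k = c)
    (hd : ∀ x, dd k x = x.2 - x.1 * (c : QB)) (r : R) : S s (r * c) = S s r * c := by
  have h3 : ee k r = ee 0 r + ee 1 (r * c) := by
    apply Subtype.ext
    show ((r : QB) * A k, (r : QB) * Bb k) = (ee 0 r).1 + (ee 1 (r * c)).1
    rw [ee0, ee1, Prod.mk_add_mk, hA, hB, mul_one, add_zero, zero_add]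
    rfl
  have h4 : (s (ee k r)).1 = (S s r, S s (r * c)) := by
    rw [h3, map_add]
    show (s (ee 0 r)).1 + (s (ee 1 (r * c))).1 = _
    rw [s_ee0, s_ee1, Prod.mk_add_mk, add_zero, zero_add]
  have h2 := dd_s s k r
  rw [h4, hd] at h2
  exact sub_eq_zero.1 h2

lemma S_phi (r : R) : S s (r * phiR) = S s r * phi :=
  S_aux s 3 phiR rfl rfl (fun _ => rfl) r

lemma S_psi (r : R) : S s (r * psiR) = S s r * (2 * psi) :=
  S_aux s 4 psiR rfl rfl (fun _ => rfl) r

noncomputable def sigma : QB := S s 1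

lemma S_word (i j : ℕ) : S s (psiR ^ i * phiR ^ j) = sigma s * ((2 * psi) ^ i * phi ^ j) := by
  induction j with
  | zero =>
    rw [pow_zero, pow_zero, mul_one, mul_one]
    induction i with
    | zero => rw [pow_zero, pow_zero, mul_one]; rfl
    | succ i ih => rw [pow_succ, S_psi, ih, pow_succ, mul_assoc]
  | succ j ih =>
    rw [pow_succ, ← mul_assoc, S_phi, ih, pow_succ]
    noncomm_ring

lemma psi_pow (i : ℕ) : psi ^ i = MonoidAlgebra.single ⟨i, 0⟩ 1 := by
  induction i with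
  | zero => rw [pow_zero]; rfl
  | succ i ih =>
    rw [pow_succ, ih]
    unfold psi
    rw [MonoidAlgebra.single_mul_single, mul_one]
    congr 1

lemma phi_pow (j : ℕ) : phi ^ j = MonoidAlgebra.single ⟨0, j⟩ 1 := by
  induction j with
  | zero => rw [pow_zero]; rfl
  | succ j ih =>
    rw [pow_succ, ih]
    unfold phi
    rw [MonoidAlgebra.single_mul_single, mul_one]
    congr 1
    refine Bic.ext ?_ ?_
    · show 0 + (0 - j) = 0
      omega
    · show (j - 0) + 1 = j + 1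
      omega

lemma two_mul_psi : (2 * psi : QB) = (2 : ℚ) • psi := by rw [two_mul, two_smul]

lemma word_eq (i j : ℕ) : (2 * psi) ^ i * phi ^ j =
    (2 : ℚ) ^ i • (MonoidAlgebra.single ⟨i, j⟩ 1 : QB) := by
  rw [two_mul_psi, smul_pow, psi_pow, phi_pow, smul_mul_assoc, MonoidAlgebra.single_mul_single,
    mul_one]
  congr 2
  refine Bic.ext ?_ ?_
  · show i + (0 - 0) = i
    omega
  · show (0 - 0) + j = j
    omega

/-- after multiplication by a power of two, `S` is left multiplication by `sigma` -/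
def Good (x : QB) : Prop := ∃ N : ℕ, ∀ M ≥ N, ∃ r : R, (r : QB) = (2 : ℚ) ^ M • x ∧
  S s r = sigma s * r

lemma S_zero : S s 0 = 0 := by
  have := S_add s 0 0
  rw [add_zero] at this
  simpa using this

lemma S_zsmul (n : ℤ) (r : R) : S s (n • r) = n • S s r := by
  let f : R →+ QB := { toFun := S s, map_zero' := S_zero s, map_add' := S_add s }
  exact map_zsmul f n r

lemma good_add {x y : QB} (hx : Good s x) (hy : Good s y) : Good s (x + y) := by
  obtain ⟨N, hN⟩ := hx
  obtain ⟨N', hN'⟩ := hy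
  refine ⟨max N N', fun M hM => ?_⟩
  obtain ⟨r, hr, hr2⟩ := hN M (le_trans (le_max_left _ _) hM)
  obtain ⟨r', hr', hr2'⟩ := hN' M (le_trans (le_max_right _ _) hM)
  refine ⟨r + r', ?_, ?_⟩
  · rw [smul_add, ← hr, ← hr']; rfl
  · rw [S_add, hr2, hr2', ← mul_add]; rfl

lemma good_single (b : Bic) (n : ℤ) : Good s (MonoidAlgebra.single b (n : ℚ)) := by
  refine ⟨b.i, fun M hM => ?_⟩
  refine ⟨(n * 2 ^ (M - b.i)) • (psiR ^ b.i * phiR ^ b.j), ?_, ?_⟩
  · have h1 : ((psiR ^ b.i * phiR ^ b.j : R) : QB) = (2 * psi) ^ b.i * phi ^ b.j := rfl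
    have h2 : (((n * 2 ^ (M - b.i)) • (psiR ^ b.i * phiR ^ b.j) : R) : QB) =
        (n * 2 ^ (M - b.i)) • ((psiR ^ b.i * phiR ^ b.j : R) : QB) := by
      push_cast
      rfl
    rw [h2, h1, word_eq, ← Int.cast_smul_eq_zsmul ℚ, smul_smul, MonoidAlgebra.smul_single',
      MonoidAlgebra.smul_single', mul_one]
    congr 1
    push_cast
    have : (2 : ℚ) ^ M = 2 ^ (M - b.i) * 2 ^ b.i := by
      rw [← pow_add, Nat.sub_add_cancel hM]
    rw [this]
    ring
  · rw [S_zsmul, S_word]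
    have h2 : (((n * 2 ^ (M - b.i)) • (psiR ^ b.i * phiR ^ b.j) : R) : QB) =
        (n * 2 ^ (M - b.i)) • ((2 * psi) ^ b.i * phi ^ b.j) := by
      push_cast
      rfl
    rw [h2, mul_smul_comm]

lemma good_all (y : MonoidAlgebra ℤ Bic) :
    Good s (MonoidAlgebra.mapRingHom Bic (Int.castRingHom ℚ) y) := by
  induction y using MonoidAlgebra.induction_linear with
  | zero =>
    rw [map_zero]
    have := good_single s 1 0
    simpa using this
  | add x y hx hy =>
    rw [map_add]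
    exact good_add s hx hy
  | single b n =>
    rw [MonoidAlgebra.mapRingHom_single]
    exact good_single s b n

lemma S_eq (r : R) : S s r = sigma s * r := by
  obtain ⟨y, hy⟩ := ((mem_R _).1 r.2).1
  obtain ⟨N, hN⟩ := good_all s y
  obtain ⟨r', hr', hr2'⟩ := hN N le_rfl
  have h1 : r' = ((2 : ℤ) ^ N) • r := by
    apply Subtype.ext
    rw [hr', hy]
    push_cast
    rw [← Int.cast_smul_eq_zsmul ℚ]
    push_cast
    rfl
  rw [h1, S_zsmul] at hr2'
  have h2 : ((((2 : ℤ) ^ N) • r : R) : QB) = ((2 : ℤ) ^ N) • (r : QB) := by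
    push_cast
    rfl
  rw [h2, mul_smul_comm, ← Int.cast_smul_eq_zsmul ℚ, ← Int.cast_smul_eq_zsmul ℚ] at hr2'
  have h3 : ((((2 : ℤ) ^ N : ℤ)) : ℚ) ≠ 0 := by
    push_cast
    positivity
  exact smul_right_injective _ h3 hr2'

/-- every endomorphism is left multiplication by `sigma` -/
lemma s_eq (g : GG) : (s g).1 = (sigma s * g.1.1, sigma s * g.1.2) := by
  obtain ⟨g, hg⟩ := g
  have key : ∀ (g : QB × QB) (hg : g ∈ GG), (s ⟨g, hg⟩).1 = (sigma s * g.1, sigma s * g.2) := by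
    intro g hg
    induction hg using AddSubgroup.closure_induction with
    | mem x hx =>
      obtain ⟨k, m, r, hr, rfl⟩ := hx
      have hA : r * A k ∈ R := mul_mem hr (A_mem k)
      have hB : r * Bb k ∈ R := mul_mem hr (B_mem k)
      have h1 : (q k) ^ m • (⟨gen k m r, gen_mem k m hr⟩ : GG) =
          ee 0 ⟨r * A k, hA⟩ + ee 1 ⟨r * Bb k, hB⟩ := by
        apply Subtype.ext
        show (q k) ^ m • gen k m r = (ee 0 ⟨r * A k, hA⟩).1 + (ee 1 ⟨r * Bb k, hB⟩).1
        rw [gen_smul, ee0, ee1, Prod.mk_add_mk, add_zero, zero_add]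
      have h2 : (q k) ^ m • (s ⟨gen k m r, gen_mem k m hr⟩).1 =
          (sigma s * (r * A k), sigma s * (r * Bb k)) := by
        have h3 : (s ((q k) ^ m • (⟨gen k m r, gen_mem k m hr⟩ : GG))).1 =
            (q k) ^ m • (s ⟨gen k m r, gen_mem k m hr⟩).1 := by
          rw [map_nsmul]; rfl
        rw [← h3, h1, map_add]
        show (s (ee 0 ⟨r * A k, hA⟩)).1 + (s (ee 1 ⟨r * Bb k, hB⟩)).1 = _
        rw [s_ee0, s_ee1, Prod.mk_add_mk, add_zero, zero_add, S_eq, S_eq]
      have hq : ((q k : ℚ) ^ m) ≠ 0 := pow_ne_zero _ (by exact_mod_cast (q_prime k).ne_zero)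
      have h4 : ∀ z : QB × QB, (q k) ^ m • z = ((q k : ℚ) ^ m) • z := by
        intro z
        rw [← Nat.cast_smul_eq_nsmul ℚ]
        push_cast
        rfl
      rw [h4] at h2
      apply smul_right_injective _ hq
      show ((q k : ℚ) ^ m) • (s ⟨gen k m r, gen_mem k m hr⟩).1 = ((q k : ℚ) ^ m) • _
      rw [h2]
      unfold gen
      refine Prod.ext ?_ ?_
      · show sigma s * (r * A k) = ((q k : ℚ) ^ m) • (sigma s * (((q k : ℚ) ^ m)⁻¹ • (r * A k)))
        rw [mul_smul_comm, smul_smul, mul_inv_cancel₀ hq, one_smul]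
      · show sigma s * (r * Bb k) = ((q k : ℚ) ^ m) • (sigma s * (((q k : ℚ) ^ m)⁻¹ • (r * Bb k)))
        rw [mul_smul_comm, smul_smul, mul_inv_cancel₀ hq, one_smul]
    | zero =>
      have : s ⟨0, zero_mem GG⟩ = 0 := map_zero s
      show (s ⟨0, zero_mem GG⟩).1 = _
      rw [this]
      show (0 : QB × QB) = (sigma s * 0, sigma s * 0)
      rw [mul_zero]
      rfl
    | add x y hx hy ihx ihy =>
      have : s ⟨x + y, add_mem hx hy⟩ = s ⟨x, hx⟩ + s ⟨y, hy⟩ := map_add s ⟨x, hx⟩ ⟨y, hy⟩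
      rw [this]
      show (s ⟨x, hx⟩).1 + (s ⟨y, hy⟩).1 = _
      rw [ihx, ihy, Prod.mk_add_mk, ← mul_add, ← mul_add]
      rfl
    | neg x hx ihx =>
      have : s ⟨-x, neg_mem hx⟩ = - s ⟨x, hx⟩ := map_neg s ⟨x, hx⟩
      rw [this]
      show -(s ⟨x, hx⟩).1 = _
      rw [ihx]
      refine Prod.ext ?_ ?_
      · show -(sigma s * x.1) = sigma s * (-x.1)
        rw [mul_neg]
      · show -(sigma s * x.2) = sigma s * (-x.2)
        rw [mul_neg]
  exact key g hg

end endo

/-! ### units of Laurent polynomials -/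

lemma laurent_unit (f g : ℚ[T;T⁻¹]) (h : f * g = 1) :
    ∃ β : ℚ, β ≠ 0 ∧ ∃ k : ℤ, f = C β * T k ∧ g = C β⁻¹ * T (-k) := by
  obtain ⟨n, f', hf'⟩ := LaurentPolynomial.exists_T_pow f
  obtain ⟨m, g', hg'⟩ := LaurentPolynomial.exists_T_pow g
  have h1 : f' * g' = Polynomial.X ^ (n + m) := by
    apply Polynomial.toLaurent_injective
    rw [map_mul, hf', hg', Polynomial.toLaurent_X_pow]
    have : f * T n * (g * T m) = (f * g) * (T n * T m) := by ring
    rw [this, h, one_mul, ← T_add]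
    push_cast
    rfl
  have h2 : f' ∣ Polynomial.X ^ (n + m) := ⟨g', h1.symm⟩
  obtain ⟨i, -, u, hu⟩ := (dvd_prime_pow Polynomial.prime_X _).1 h2
  obtain ⟨c, hc, hcu⟩ := Polynomial.isUnit_iff.1 u.isUnit
  have hc0 : c ≠ 0 := hc.ne_zero
  have h3 : f' = Polynomial.C c⁻¹ * Polynomial.X ^ i := by
    rw [← hu, ← hcu, mul_comm f', ← mul_assoc, ← Polynomial.C_mul, inv_mul_cancel₀ hc0,
      Polynomial.C_1, one_mul]
  have h4 : f = C c⁻¹ * T ((i : ℤ) - n) := by
    have h5 : f = (f * T n) * T (-(n : ℤ)) := by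
      rw [mul_assoc, ← T_add, add_neg_cancel, T_zero, mul_one]
    rw [h5, ← hf', h3, Polynomial.toLaurent_C_mul_X_pow, mul_assoc, ← T_add]
    rfl
  refine ⟨c⁻¹, inv_ne_zero hc0, (i : ℤ) - n, h4, ?_⟩
  have h6 : g = (C (c⁻¹)⁻¹ * T (-((i : ℤ) - n))) * (f * g) := by
    rw [← mul_assoc]
    have : C (c⁻¹)⁻¹ * T (-((i : ℤ) - n)) * f = 1 := by
      rw [h4]
      have e : C (c⁻¹)⁻¹ * T (-((i : ℤ) - n)) * (C c⁻¹ * T ((i : ℤ) - n)) =
          (C (c⁻¹)⁻¹ * C c⁻¹) * (T (-((i : ℤ) - n)) * T ((i : ℤ) - n)) := by ring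
      rw [e, ← map_mul, ← T_add, inv_mul_cancel₀ (inv_ne_zero hc0), neg_add_cancel, map_one,
        T_zero, one_mul]
    rw [this, one_mul]
  rw [h, mul_one] at h6
  exact h6

/-! ### integrality at two -/

instance fact2 : Fact (Nat.Prime 2) := ⟨Nat.prime_two⟩

lemma coeff_CT (c : ℚ) (n d : ℤ) : (C c * T n : ℚ[T;T⁻¹]).coeff d = if n = d then c else 0 := by
  classical
  rw [← LaurentPolynomial.single_eq_C_mul_T, AddMonoidAlgebra.coeff_single, Finsupp.single_apply]

lemma sym_int {x : QB} (hx : x ∈ RZ) (d : ℤ) : ∃ n : ℤ, (n : ℚ) = (sym x).coeff d := by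
  obtain ⟨y, rfl⟩ := hx
  induction y using MonoidAlgebra.induction_linear with
  | zero => exact ⟨0, by simp⟩
  | add x y hx hy =>
    obtain ⟨n, hn⟩ := hx
    obtain ⟨m, hm⟩ := hy
    refine ⟨n + m, ?_⟩
    rw [map_add, map_add, AddMonoidAlgebra.coeff_add, Finsupp.add_apply, ← hn, ← hm]
    push_cast
    rfl
  | single b n =>
    rw [MonoidAlgebra.mapRingHom_single, sym_single, coeff_CT]
    split_ifs
    · exact ⟨n, rfl⟩
    · exact ⟨0, by simp⟩

lemma int_two {g : QB × QB} (hg : g ∈ GG) :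
    padicNorm 2 (rho g.1) ≤ 1 ∧ ∀ d, padicNorm 2 ((sym g.1).coeff d) ≤ 1 := by
  induction hg using AddSubgroup.closure_induction with
  | mem x hx =>
    obtain ⟨l, m, r, hr, rfl⟩ := hx
    have hc : padicNorm 2 (((q l : ℚ) ^ m)⁻¹) = 1 :=
      norm_inv (q_prime l) (q_ne_two l).symm
    have hrA : r * A l ∈ R := mul_mem hr (A_mem l)
    constructor
    · show padicNorm 2 (rho (((q l : ℚ) ^ m)⁻¹ • (r * A l))) ≤ 1
      rw [rho_eq, map_smul, LaurentPolynomial.smul_eq_C_mul, map_mul]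
      have h1 : ev (C ((q l : ℚ) ^ m)⁻¹) = ((q l : ℚ) ^ m)⁻¹ := by
        have := ev_CT ((q l : ℚ) ^ m)⁻¹ 0
        simpa using this
      rw [h1, padicNorm.mul, hc, one_mul, ← rho_eq]
      obtain ⟨n, hn⟩ := ((mem_R _).1 hrA).2
      rw [← hn]
      exact padicNorm.of_int n
    · intro d
      show padicNorm 2 ((sym (((q l : ℚ) ^ m)⁻¹ • (r * A l))).coeff d) ≤ 1
      rw [map_smul, AddMonoidAlgebra.coeff_smul_apply, smul_eq_mul, padicNorm.mul, hc, one_mul]
      obtain ⟨n, hn⟩ := sym_int ((mem_R _).1 hrA).1 d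
      rw [← hn]
      exact padicNorm.of_int n
  | zero =>
    constructor
    · show padicNorm 2 (rho 0) ≤ 1
      rw [map_zero]; simp
    · intro d
      show padicNorm 2 ((sym 0).coeff d) ≤ 1
      rw [map_zero]; simp
  | add x y _ _ hx hy =>
    constructor
    · show padicNorm 2 (rho (x.1 + y.1)) ≤ 1
      rw [map_add]
      exact (padicNorm.nonarchimedean).trans (max_le hx.1 hy.1)
    · intro d
      show padicNorm 2 ((sym (x.1 + y.1)).coeff d) ≤ 1
      rw [map_add, AddMonoidAlgebra.coeff_add, Finsupp.add_apply]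
      exact (padicNorm.nonarchimedean).trans (max_le (hx.2 d) (hy.2 d))
  | neg x _ hx =>
    constructor
    · show padicNorm 2 (rho (-x.1)) ≤ 1
      rw [map_neg, padicNorm.neg]
      exact hx.1
    · intro d
      show padicNorm 2 ((sym (-x.1)).coeff d) ≤ 1
      have : (sym (-x.1)).coeff d = - (sym x.1).coeff d := by
        rw [map_neg]; rfl
      rw [this, padicNorm.neg]
      exact hx.2 d

lemma norm_two_zpow (k : ℤ) : padicNorm 2 ((2 : ℚ) ^ k) = (2 : ℚ) ^ (-k) := by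
  have h2 : padicNorm 2 (2 : ℚ) = (2 : ℚ)⁻¹ := by
    have := padicNorm.padicNorm_p_of_prime (p := 2)
    simpa using this
  have hpow : ∀ n : ℕ, padicNorm 2 ((2 : ℚ) ^ n) = ((2 : ℚ) ^ n)⁻¹ := by
    intro n
    have := norm_pow' 2 n
    simpa using this
  obtain ⟨n, rfl | rfl⟩ := k.eq_nat_or_neg
  · rw [zpow_natCast, hpow, zpow_neg, zpow_natCast]
  · rw [neg_neg, zpow_neg, zpow_natCast]
    have h := padicNorm.mul (p := 2) ((2 : ℚ) ^ n) (((2 : ℚ) ^ n)⁻¹)
    rw [mul_inv_cancel₀ (by positivity), padicNorm.one, hpow] at h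
    have h3 : ((2 : ℚ) ^ n) ≠ 0 := by positivity
    calc padicNorm 2 (((2 : ℚ) ^ n)⁻¹) = (2 : ℚ) ^ n * (((2 : ℚ) ^ n)⁻¹ * padicNorm 2 (((2 : ℚ) ^ n)⁻¹)) := by
          rw [← mul_assoc, mul_inv_cancel₀ h3, one_mul]
      _ = (2 : ℚ) ^ n := by rw [← h, mul_one]

/-- if `σ t = 1` with `σ, t` first coordinates of elements of `G`, the symbol of `σ` is constant -/
lemma sym_const {x t : QB} (hx : (x, (0 : QB)) ∈ GG ∨ ∃ y, (x, y) ∈ GG) (ht : ∃ y, (t, y) ∈ GG)
    (h : x * t = 1) : ∃ β : ℚ, β ≠ 0 ∧ sym x = C β := by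
  have hx' : ∃ y, (x, y) ∈ GG := by
    rcases hx with hx | hx
    · exact ⟨0, hx⟩
    · exact hx
  obtain ⟨y, hy⟩ := hx'
  obtain ⟨z, hz⟩ := ht
  obtain ⟨i1, i2⟩ := int_two hy
  obtain ⟨j1, j2⟩ := int_two hz
  simp only at i1 i2 j1 j2
  have hs : sym x * sym t = 1 := by rw [← map_mul, h, map_one]
  obtain ⟨β, hβ, k, hk1, hk2⟩ := laurent_unit _ _ hs
  have b1 : padicNorm 2 β ≤ 1 := by
    have := i2 k
    rw [hk1, coeff_CT, if_pos rfl] at this
    exact this
  have b2 : padicNorm 2 β⁻¹ ≤ 1 := by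
    have := j2 (-k)
    rw [hk2, coeff_CT, if_pos rfl] at this
    exact this
  have b3 : padicNorm 2 β * padicNorm 2 β⁻¹ = 1 := by
    rw [← padicNorm.mul, mul_inv_cancel₀ hβ, padicNorm.one]
  have b4 : padicNorm 2 β = 1 := by
    apply le_antisymm b1
    have h0 : 0 ≤ padicNorm 2 β := padicNorm.nonneg _
    nlinarith
  have b5 : padicNorm 2 β⁻¹ = 1 := by rw [b4, one_mul] at b3; exact b3
  have r1 : rho x = β * 2 ^ k := by rw [rho_eq, hk1, ev_CT]
  have r2 : rho t = β⁻¹ * 2 ^ (-k) := by rw [rho_eq, hk2, ev_CT]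
  rw [r1, padicNorm.mul, b4, one_mul, norm_two_zpow] at i1
  rw [r2, padicNorm.mul, b5, one_mul, norm_two_zpow, neg_neg] at j1
  have k1 : 0 ≤ k := by
    by_contra hk
    push Not at hk
    have : (1 : ℚ) < 2 ^ (-k) := one_lt_zpow₀ (by norm_num) (by omega)
    exact absurd i1 (not_le.2 this)
  have k2 : k ≤ 0 := by
    by_contra hk
    push Not at hk
    have : (1 : ℚ) < 2 ^ k := one_lt_zpow₀ (by norm_num) (by omega)
    exact absurd j1 (not_le.2 this)
  have k3 : k = 0 := le_antisymm k2 k1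
  refine ⟨β, hβ, ?_⟩
  rw [hk1, k3, T_zero, mul_one]

/-! ### the natural representation -/

abbrev V := ℕ →₀ ℚ

noncomputable def thF : Bic →* Module.End ℚ V where
  toFun b := Finsupp.linearCombination ℚ
    (fun n => if b.j ≤ n then (Finsupp.single (n - b.j + b.i) 1 : V) else 0)
  map_one' := by
    apply Finsupp.lhom_ext
    intro n c
    rw [Finsupp.linearCombination_single, one_i, one_j, if_pos (Nat.zero_le n)]
    simp
  map_mul' a b := by
    apply Finsupp.lhom_ext
    intro n c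
    show _ = (Finsupp.linearCombination ℚ _) ((Finsupp.linearCombination ℚ _) (Finsupp.single n c))
    rw [Finsupp.linearCombination_single, Finsupp.linearCombination_single, map_smul, mul_i, mul_j]
    congr 1
    by_cases h1 : b.j ≤ n
    · rw [if_pos h1, Finsupp.linearCombination_single, one_smul]
      by_cases h2 : a.j ≤ n - b.j + b.i
      · rw [if_pos h2, if_pos (by omega)]
        congr 1
        omega
      · rw [if_neg h2, if_neg (by omega)]
    · rw [if_neg h1, if_neg (by omega), map_zero]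

lemma thF_single (b : Bic) (n : ℕ) : thF b (Finsupp.single n 1) =
    if b.j ≤ n then (Finsupp.single (n - b.j + b.i) 1 : V) else 0 := by
  show (Finsupp.linearCombination ℚ
    (fun n => if b.j ≤ n then (Finsupp.single (n - b.j + b.i) 1 : V) else 0)) _ = _
  rw [Finsupp.linearCombination_single, one_smul]

noncomputable def th : QB →ₐ[ℚ] Module.End ℚ V := MonoidAlgebra.lift ℚ (Module.End ℚ V) Bic thF

lemma th_apply (x : QB) (n m : ℕ) : (th x (Finsupp.single n 1)) m =
    x.coeff.sum (fun b c => if b.j ≤ n ∧ n - b.j + b.i = m then c else 0) := by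
  classical
  induction x using MonoidAlgebra.induction_linear with
  | zero => rw [map_zero]; simp
  | add x y hx hy =>
    rw [map_add, LinearMap.add_apply, Finsupp.add_apply, hx, hy, MonoidAlgebra.coeff_add,
      Finsupp.sum_add_index']
    · intro b; simp
    · intro b c c'
      split_ifs
      · rfl
      · rw [add_zero]
  | single b c =>
    rw [MonoidAlgebra.coeff_single, Finsupp.sum_single_index (by simp)]
    unfold th
    rw [MonoidAlgebra.lift_single, LinearMap.smul_apply, thF_single, Finsupp.smul_apply,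
      smul_eq_mul]
    by_cases h1 : b.j ≤ n
    · rw [if_pos h1, Finsupp.single_apply]
      by_cases h2 : n - b.j + b.i = m
      · rw [if_pos h2, if_pos ⟨h1, h2⟩, mul_one]
      · rw [if_neg h2, if_neg (fun h => h2 h.2), mul_zero]
    · rw [if_neg h1, if_neg (fun h => h1 h.1)]
      simp

lemma sym_coeff (x : QB) (d : ℤ) : (sym x).coeff d =
    x.coeff.sum (fun b c => if (b.j : ℤ) - b.i = d then c else 0) := by
  classical
  induction x using MonoidAlgebra.induction_linear with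
  | zero => rw [map_zero]; simp
  | add x y hx hy =>
    rw [map_add, AddMonoidAlgebra.coeff_add, Finsupp.add_apply, hx, hy, MonoidAlgebra.coeff_add,
      Finsupp.sum_add_index']
    · intro b; simp
    · intro b c c'
      split_ifs
      · rfl
      · rw [add_zero]
  | single b c =>
    rw [MonoidAlgebra.coeff_single, Finsupp.sum_single_index (by simp), sym_single, coeff_CT]

/-- the representation is faithful -/
lemma th_faithful {x : QB} (h : th x = 0) : x = 0 := by
  classical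
  have key : ∀ j i : ℕ, x.coeff ⟨i, j⟩ = 0 := by
    intro j
    induction j using Nat.strong_induction_on with
    | _ j ih =>
      intro i
      have h1 := th_apply x j i
      rw [h, LinearMap.zero_apply, Finsupp.zero_apply] at h1
      unfold Finsupp.sum at h1
      rw [Finset.sum_eq_single (⟨i, j⟩ : Bic)] at h1
      · beta_reduce at h1
        rw [if_pos ⟨le_rfl, by simp⟩] at h1
        exact h1.symm
      · intro b hb hne
        beta_reduce
        by_cases hc : b.j ≤ j ∧ j - b.j + b.i = i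
        · rw [if_pos hc]
          rcases lt_or_eq_of_le hc.1 with hlt | heq
          · exact ih b.j hlt b.i
          · exfalso
            apply hne
            refine Bic.ext ?_ heq
            show b.i = i
            omega
        · rw [if_neg hc]
      · intro hb
        rw [Finsupp.notMem_support_iff] at hb
        beta_reduce
        rw [hb, ite_self]
  apply MonoidAlgebra.coeff_injective
  ext b
  exact key b.j b.i

/-- an element with zero symbol acts with finite-dimensional range -/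
lemma finite_range {x : QB} (h : sym x = 0) :
    ∃ W : Submodule ℚ V, FiniteDimensional ℚ W ∧ ∀ v, th x v ∈ W := by
  classical
  let N : ℕ := x.coeff.support.sup (fun b => b.j)
  have hN : ∀ n, N ≤ n → th x (Finsupp.single n 1) = 0 := by
    intro n hn
    ext m
    rw [th_apply, Finsupp.zero_apply]
    have h1 := sym_coeff x ((n : ℤ) - m)
    rw [h] at h1
    have h2 : x.coeff.sum (fun b c => if b.j ≤ n ∧ n - b.j + b.i = m then c else 0) =
        x.coeff.sum (fun b c => if (b.j : ℤ) - b.i = (n : ℤ) - m then c else 0) := by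
      apply Finset.sum_congr rfl
      intro b hb
      have hbj : b.j ≤ n := le_trans (Finset.le_sup (f := fun b : Bic => b.j) hb) hn
      have : (b.j ≤ n ∧ n - b.j + b.i = m) ↔ ((b.j : ℤ) - b.i = (n : ℤ) - m) := by
        constructor
        · rintro ⟨h3, h4⟩
          omega
        · intro h3
          exact ⟨hbj, by omega⟩
      simp only [this]
    rw [h2, ← h1]
    rfl
  refine ⟨Submodule.span ℚ ((fun n => th x (Finsupp.single n 1)) '' (Finset.range N : Set ℕ)),
    FiniteDimensional.span_of_finite ℚ ((Finset.finite_toSet _).image _), ?_⟩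
  intro v
  induction v using Finsupp.induction_linear with
  | zero => rw [map_zero]; exact zero_mem _
  | add v w hv hw => rw [map_add]; exact add_mem hv hw
  | single n c =>
    have h1 : (Finsupp.single n c : V) = c • Finsupp.single n 1 := by simp
    rw [h1, map_smul]
    apply Submodule.smul_mem
    by_cases hn : N ≤ n
    · rw [hN n hn]; exact zero_mem _
    · apply Submodule.subset_span
      exact ⟨n, by simpa using hn, rfl⟩

lemma inj_of_surj (K : Module.End ℚ V) (β : ℚ) (hβ : β ≠ 0) (W : Submodule ℚ V)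
    [FiniteDimensional ℚ W] (hK : ∀ v, K v ∈ W)
    (hs : Function.Surjective (β • (1 : Module.End ℚ V) + K)) (v : V)
    (hv : (β • (1 : Module.End ℚ V) + K) v = 0) : v = 0 := by
  have happ : ∀ v, (β • (1 : Module.End ℚ V) + K) v = β • v + K v := fun v => rfl
  have hmem : ∀ v, β • v ∈ W → v ∈ W := by
    intro v hv
    have := W.smul_mem β⁻¹ hv
    rwa [smul_smul, inv_mul_cancel₀ hβ, one_smul] at this
  have hW : ∀ w ∈ W, (β • (1 : Module.End ℚ V) + K) w ∈ W := by
    intro w hw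
    rw [happ]
    exact add_mem (W.smul_mem _ hw) (hK w)
  let f : W →ₗ[ℚ] W := (β • (1 : Module.End ℚ V) + K).restrict hW
  have hfs : Function.Surjective f := by
    intro w
    obtain ⟨v, hv⟩ := hs w
    rw [happ] at hv
    have hvW : v ∈ W := by
      apply hmem
      have : β • v = w - K v := by rw [← hv]; abel
      rw [this]
      exact sub_mem w.2 (hK v)
    refine ⟨⟨v, hvW⟩, ?_⟩
    apply Subtype.ext
    exact hv
  have hfi : Function.Injective f := LinearMap.injective_iff_surjective.2 hfs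
  have hvW : v ∈ W := by
    apply hmem
    rw [happ] at hv
    have : β • v = - K v := eq_neg_of_add_eq_zero_left hv
    rw [this]
    exact neg_mem (hK v)
  have h1 : f ⟨v, hvW⟩ = 0 := Subtype.ext hv
  have h2 : (⟨v, hvW⟩ : W) = 0 := hfi (by rw [h1, map_zero])
  exact congrArg Subtype.val h2

/-! ### the main statements -/

lemma torsion_free : ∀ (n : ℤ) (x : GG), n ≠ 0 → n • x = 0 → x = 0 := by
  intro n x hn h
  have h1 : n • x.1 = 0 := congrArg Subtype.val h
  have h2 : ((n : ℚ)) • x.1 = 0 := by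
    rw [← h1]
    exact Int.cast_smul_eq_zsmul ℚ n x.1
  apply Subtype.ext
  rcases smul_eq_zero.1 h2 with h3 | h3
  · exact absurd (by exact_mod_cast h3) hn
  · exact h3

lemma hopfian (s : GG →+ GG) (hs : Function.Surjective s) : Function.Injective s := by
  have hone : ((1 : QB), (0 : QB)) ∈ GG := by
    have := (ee 0 1).2
    rw [ee0] at this
    exact this
  obtain ⟨g, hg⟩ := hs ⟨(1, 0), hone⟩
  have h1 := s_eq s g
  rw [hg] at h1
  have h2 : sigma s * g.1.1 = 1 := (congrArg Prod.fst h1).symm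
  have h3 : (sigma s, (0 : QB)) ∈ GG := by
    have h4 := s_eq s ⟨(1, 0), hone⟩
    have h5 := (s ⟨(1, 0), hone⟩).2
    rw [h4] at h5
    simpa using h5
  obtain ⟨β, hβ, hsym⟩ := sym_const (Or.inl h3) ⟨g.1.2, g.2⟩ h2
  have h6 : sym (sigma s - algebraMap ℚ QB β) = 0 := by
    rw [map_sub, hsym, AlgHom.commutes, ← LaurentPolynomial.C_eq_algebraMap, sub_self]
  obtain ⟨W, hWf, hW⟩ := finite_range h6
  have h7 : th (sigma s) = β • (1 : Module.End ℚ V) + th (sigma s - algebraMap ℚ QB β) := by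
    rw [map_sub, AlgHom.commutes, Algebra.algebraMap_eq_smul_one]
    abel
  have hsurj : Function.Surjective (β • (1 : Module.End ℚ V) + th (sigma s - algebraMap ℚ QB β)) := by
    rw [← h7]
    intro v
    refine ⟨th g.1.1 v, ?_⟩
    have : th (sigma s) (th g.1.1 v) = (th (sigma s * g.1.1)) v := by
      rw [map_mul]; rfl
    rw [this, h2, map_one]
    rfl
  have hinj : ∀ u : QB, sigma s * u = 0 → u = 0 := by
    intro u hu
    apply th_faithful
    apply LinearMap.ext
    intro v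
    apply inj_of_surj _ β hβ W hW hsurj
    rw [← h7]
    have : th (sigma s) (th u v) = (th (sigma s * u)) v := by
      rw [map_mul]; rfl
    rw [this, hu, map_zero]
    rfl
  rw [injective_iff_map_eq_zero]
  intro x hx
  have h8 := s_eq s x
  rw [hx] at h8
  have h9 : sigma s * x.1.1 = 0 := (congrArg Prod.fst h8).symm
  have h10 : sigma s * x.1.2 = 0 := (congrArg Prod.snd h8).symm
  apply Subtype.ext
  exact Prod.ext (hinj _ h9) (hinj _ h10)

/-- left multiplication by an element of `R` preserves `G` -/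
lemma mul_mem_GG {c : QB} (hc : c ∈ R) {g : QB × QB} (hg : g ∈ GG) :
    (c * g.1, c * g.2) ∈ GG := by
  induction hg using AddSubgroup.closure_induction with
  | mem x hx =>
    obtain ⟨k, m, r, hr, rfl⟩ := hx
    have : (c * (gen k m r).1, c * (gen k m r).2) = gen k m (c * r) := by
      unfold gen
      refine Prod.ext ?_ ?_
      · show c * (((q k : ℚ) ^ m)⁻¹ • (r * A k)) = ((q k : ℚ) ^ m)⁻¹ • (c * r * A k)
        rw [mul_smul_comm, mul_assoc]
      · show c * (((q k : ℚ) ^ m)⁻¹ • (r * Bb k)) = ((q k : ℚ) ^ m)⁻¹ • (c * r * Bb k)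
        rw [mul_smul_comm, mul_assoc]
    rw [this]
    exact gen_mem k m (mul_mem hc hr)
  | zero =>
    have : (c * (0 : QB × QB).1, c * (0 : QB × QB).2) = 0 := by simp
    rw [this]
    exact zero_mem _
  | add x y _ _ hx hy =>
    have : (c * (x + y).1, c * (x + y).2) = (c * x.1, c * x.2) + (c * y.1, c * y.2) := by
      rw [Prod.fst_add, Prod.snd_add, mul_add, mul_add]; rfl
    rw [this]
    exact add_mem hx hy
  | neg x _ hx =>
    have : (c * (-x).1, c * (-x).2) = -(c * x.1, c * x.2) := by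
      rw [Prod.fst_neg, Prod.snd_neg, mul_neg, mul_neg]; rfl
    rw [this]
    exact neg_mem hx

/-- the endomorphism `φ` of `G` -/
noncomputable def phiG : GG →+ GG where
  toFun g := ⟨(phi * g.1.1, phi * g.1.2), mul_mem_GG phi_mem g.2⟩
  map_zero' := by
    apply Subtype.ext
    show (phi * 0, phi * 0) = (0 : QB × QB)
    rw [mul_zero]
    rfl
  map_add' x y := by
    apply Subtype.ext
    show (phi * (x.1.1 + y.1.1), phi * (x.1.2 + y.1.2)) = _
    rw [mul_add, mul_add]
    rfl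

lemma not_injective : ¬ Function.Injective phiG := by
  intro h
  have hmem : 1 - psi * phi ∈ R := by
    rw [mem_R]
    refine ⟨sub_mem (one_mem _) (mul_mem psi_mem_RZ ((mem_R _).1 phi_mem).1), 0, ?_⟩
    rw [map_sub, map_mul, map_one, rho_psi, rho_phi]
    norm_num
  have hz : phiG (ee 0 ⟨1 - psi * phi, hmem⟩) = 0 := by
    apply Subtype.ext
    show (phi * (ee 0 ⟨1 - psi * phi, hmem⟩).1.1, phi * (ee 0 ⟨1 - psi * phi, hmem⟩).1.2) = 0
    rw [ee0]
    simp only [mul_zero]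
    rw [mul_sub, ← mul_assoc, phi_psi, mul_one, one_mul, sub_self]
    rfl
  have h1 : ee 0 ⟨1 - psi * phi, hmem⟩ = 0 := h (by rw [hz, map_zero])
  have h2 := congrArg (fun z : GG => z.1.1) h1
  simp only [ee0] at h2
  exact psi_phi_ne h2

lemma dec_R {r : QB} (hr : r ∈ R) : ∃ n : ℤ, ∃ r' ∈ R, r = (n : QB) + phi * r' := by
  obtain ⟨h1, n, hn⟩ := (mem_R r).1 hr
  refine ⟨n, psi * (r - n), ?_, ?_⟩
  · rw [mem_R]
    refine ⟨mul_mem psi_mem_RZ (sub_mem h1 (intCast_mem RZ n)), 0, ?_⟩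
    rw [map_mul, map_sub, map_intCast, hn, sub_self, mul_zero]
    simp
  · rw [← mul_assoc, phi_psi, one_mul]
    abel

/-- elements of `G` congruent to integral combinations of the two basic elements -/
def PP (g : QB × QB) : Prop := ∃ a b : ℤ, ∃ h ∈ GG,
  g = ((a : QB) + phi * h.1, (b : QB) + phi * h.2)

lemma PP_add {g g' : QB × QB} (h : PP g) (h' : PP g') : PP (g + g') := by
  obtain ⟨a, b, x, hx, rfl⟩ := h
  obtain ⟨a', b', x', hx', rfl⟩ := h'
  refine ⟨a + a', b + b', x + x', add_mem hx hx', ?_⟩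
  refine Prod.ext ?_ ?_
  · show (a : QB) + phi * x.1 + ((a' : QB) + phi * x'.1) = ((a + a' : ℤ) : QB) + phi * (x.1 + x'.1)
    push_cast
    rw [mul_add]
    abel
  · show (b : QB) + phi * x.2 + ((b' : QB) + phi * x'.2) = ((b + b' : ℤ) : QB) + phi * (x.2 + x'.2)
    push_cast
    rw [mul_add]
    abel

lemma PP_neg {g : QB × QB} (h : PP g) : PP (-g) := by
  obtain ⟨a, b, x, hx, rfl⟩ := h
  refine ⟨-a, -b, -x, neg_mem hx, ?_⟩
  refine Prod.ext ?_ ?_
  · show -((a : QB) + phi * x.1) = ((-a : ℤ) : QB) + phi * (-x.1)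
    push_cast
    rw [mul_neg]
    abel
  · show -((b : QB) + phi * x.2) = ((-b : ℤ) : QB) + phi * (-x.2)
    push_cast
    rw [mul_neg]
    abel

lemma PP_zsmul {g : QB × QB} (h : PP g) (n : ℤ) : PP (n • g) := by
  obtain ⟨a, b, x, hx, rfl⟩ := h
  refine ⟨n * a, n * b, n • x, zsmul_mem hx n, ?_⟩
  refine Prod.ext ?_ ?_
  · show n • ((a : QB) + phi * x.1) = ((n * a : ℤ) : QB) + phi * (n • x.1)
    push_cast
    rw [smul_add, mul_smul_comm, zsmul_eq_mul]
  · show n • ((b : QB) + phi * x.2) = ((n * b : ℤ) : QB) + phi * (n • x.2)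
    push_cast
    rw [smul_add, mul_smul_comm, zsmul_eq_mul]

lemma PP_phi {h : QB × QB} (hh : h ∈ GG) : PP (phi * h.1, phi * h.2) :=
  ⟨0, 0, h, hh, by simp⟩

lemma PP_R {r r' : QB} (hr : r ∈ R) (hr' : r' ∈ R) : PP (r, r') := by
  obtain ⟨a, u, hu, rfl⟩ := dec_R hr
  obtain ⟨b, v, hv, rfl⟩ := dec_R hr'
  refine ⟨a, b, (u, v), ?_, rfl⟩
  have h1 := (ee 0 ⟨u, hu⟩).2
  have h2 := (ee 1 ⟨v, hv⟩).2
  rw [ee0] at h1
  rw [ee1] at h2
  have := add_mem h1 h2
  simpa using this

lemma gen_add (k : Fin 5) (m : ℕ) (r r' : QB) : gen k m (r + r') = gen k m r + gen k m r' := by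
  unfold gen
  rw [Prod.mk_add_mk, add_mul, add_mul, smul_add, smul_add]

lemma gen_phi (k : Fin 5) (m : ℕ) (r : QB) : gen k m (phi * r) =
    (phi * (gen k m r).1, phi * (gen k m r).2) := by
  unfold gen
  refine Prod.ext ?_ ?_
  · show ((q k : ℚ) ^ m)⁻¹ • (phi * r * A k) = phi * (((q k : ℚ) ^ m)⁻¹ • (r * A k))
    rw [mul_smul_comm, mul_assoc]
  · show ((q k : ℚ) ^ m)⁻¹ • (phi * r * Bb k) = phi * (((q k : ℚ) ^ m)⁻¹ • (r * Bb k))
    rw [mul_smul_comm, mul_assoc]

lemma gen_int (k : Fin 5) (m : ℕ) (n : ℤ) : gen k m (n : QB) = n • gen k m 1 := by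
  unfold gen
  refine Prod.ext ?_ ?_
  · show ((q k : ℚ) ^ m)⁻¹ • ((n : QB) * A k) = n • (((q k : ℚ) ^ m)⁻¹ • (1 * A k))
    rw [one_mul, smul_comm, zsmul_eq_mul]
  · show ((q k : ℚ) ^ m)⁻¹ • ((n : QB) * Bb k) = n • (((q k : ℚ) ^ m)⁻¹ • (1 * Bb k))
    rw [one_mul, smul_comm, zsmul_eq_mul]

lemma q_odd : ∀ k, ¬ 2 ∣ q k := by decide

lemma PP_gen_one (k : Fin 5) (m : ℕ) : PP (gen k m 1) := by
  have hodd : Odd ((q k) ^ m) := by
    apply Odd.pow
    rw [← Nat.not_even_iff_odd, even_iff_two_dvd]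
    exact q_odd k
  obtain ⟨t, ht⟩ := hodd
  have h1 := gen_smul k m 1
  have h2 : gen k m (phi * (2 * psi)) = (2 : ℤ) • gen k m 1 := by
    have : phi * (2 * psi) = ((2 : ℤ) : QB) := by
      rw [two_mul_psi, mul_smul_comm, phi_psi]
      rw [two_smul]
      push_cast
      norm_num
    rw [this, gen_int]
  have h3 : gen k m 1 = (1 * A k, 1 * Bb k) + (-(t : ℤ)) • gen k m (phi * (2 * psi)) := by
    rw [h2, ← h1, ht, smul_smul, ← natCast_zsmul, ← add_smul]
    have : (((2 * t + 1 : ℕ) : ℤ) + -(t : ℤ) * 2) = 1 := by push_cast; ring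
    rw [this, one_smul]
  rw [h3]
  apply PP_add
  · rw [one_mul, one_mul]
    exact PP_R (A_mem k) (B_mem k)
  · apply PP_zsmul
    rw [gen_phi]
    exact PP_phi (gen_mem k m two_psi_mem)

lemma PP_all {g : QB × QB} (hg : g ∈ GG) : PP g := by
  induction hg using AddSubgroup.closure_induction with
  | mem x hx =>
    obtain ⟨k, m, r, hr, rfl⟩ := hx
    obtain ⟨n, r', hr', rfl⟩ := dec_R hr
    rw [gen_add, gen_int, gen_phi]
    exact PP_add (PP_zsmul (PP_gen_one k m) n) (PP_phi (gen_mem k m hr'))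
  | zero => exact ⟨0, 0, 0, zero_mem _, by simp; rfl⟩
  | add x y _ _ hx hy => exact PP_add hx hy
  | neg x _ hx => exact PP_neg hx

lemma finite_coker : Finite (GG ⧸ phiG.range) := by
  let x : GG ⧸ phiG.range := QuotientAddGroup.mk (ee 0 1)
  let y : GG ⧸ phiG.range := QuotientAddGroup.mk (ee 1 1)
  have hphi2 : phi * (2 * psi) = (2 : QB) := by
    rw [two_mul_psi, mul_smul_comm, phi_psi, two_smul]
    norm_num
  have hx : (2 : ℤ) • x = 0 := by
    have : ((2 : ℤ) • ee 0 1) ∈ phiG.range := by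
      refine ⟨ee 0 psiR, ?_⟩
      apply Subtype.ext
      show (phi * (ee 0 psiR).1.1, phi * (ee 0 psiR).1.2) = (2 : ℤ) • (ee 0 1).1
      rw [ee0, ee0]
      refine Prod.ext ?_ ?_
      · show phi * (2 * psi) = (2 : ℤ) • (1 : QB)
        rw [hphi2]; norm_num
      · show phi * 0 = (2 : ℤ) • (0 : QB)
        rw [mul_zero, smul_zero]
    exact (QuotientAddGroup.eq_zero_iff _).2 this
  have hy : (2 : ℤ) • y = 0 := by
    have : ((2 : ℤ) • ee 1 1) ∈ phiG.range := by
      refine ⟨ee 1 psiR, ?_⟩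
      apply Subtype.ext
      show (phi * (ee 1 psiR).1.1, phi * (ee 1 psiR).1.2) = (2 : ℤ) • (ee 1 1).1
      rw [ee1, ee1]
      refine Prod.ext ?_ ?_
      · show phi * 0 = (2 : ℤ) • (0 : QB)
        rw [mul_zero, smul_zero]
      · show phi * (2 * psi) = (2 : ℤ) • (1 : QB)
        rw [hphi2]; norm_num
    exact (QuotientAddGroup.eq_zero_iff _).2 this
  let f : Fin 2 × Fin 2 → GG ⧸ phiG.range := fun p => ((p.1 : ℕ) : ℤ) • x + ((p.2 : ℕ) : ℤ) • y
  have hmod : ∀ (z : GG ⧸ phiG.range), (2 : ℤ) • z = 0 → ∀ a : ℤ, ∃ i : Fin 2,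
      a • z = ((i : ℕ) : ℤ) • z := by
    intro z hz a
    refine ⟨⟨(a % 2).toNat, by omega⟩, ?_⟩
    have h1 : (((a % 2).toNat : ℕ) : ℤ) = a % 2 := Int.toNat_of_nonneg (by omega)
    show a • z = (((a % 2).toNat : ℕ) : ℤ) • z
    rw [h1]
    have h2 : a = 2 * (a / 2) + a % 2 := (Int.mul_ediv_add_emod a 2).symm
    have h3 : (2 * (a / 2)) • z = 0 := by
      rw [mul_comm, mul_zsmul, hz, zsmul_zero]
    conv_lhs => rw [h2, add_zsmul, h3, zero_add]
  refine Finite.of_surjective f ?_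
  intro z
  obtain ⟨g, rfl⟩ := QuotientAddGroup.mk_surjective z
  obtain ⟨a, b, h, hh, hg⟩ := PP_all g.2
  obtain ⟨i, hi⟩ := hmod x hx a
  obtain ⟨j, hj⟩ := hmod y hy b
  refine ⟨(i, j), ?_⟩
  show ((i : ℕ) : ℤ) • x + ((j : ℕ) : ℤ) • y = _
  rw [← hi, ← hj]
  have h1 : g = a • ee 0 1 + b • ee 1 1 + phiG ⟨h, hh⟩ := by
    apply Subtype.ext
    rw [hg]
    show _ = a • (ee 0 1).1 + b • (ee 1 1).1 + (phi * h.1, phi * h.2)
    rw [ee0, ee1]
    refine Prod.ext ?_ ?_
    · show (a : QB) + phi * h.1 = a • (1 : QB) + b • (0 : QB) + phi * h.1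
      rw [smul_zero, add_zero, zsmul_eq_mul, mul_one]
    · show (b : QB) + phi * h.2 = a • (0 : QB) + b • (1 : QB) + phi * h.2
      rw [smul_zero, zero_add, zsmul_eq_mul, mul_one]
  have h2 : ((phiG ⟨h, hh⟩ : GG) : GG ⧸ phiG.range) = 0 :=
    (QuotientAddGroup.eq_zero_iff _).2 ⟨⟨h, hh⟩, rfl⟩
  rw [h1]
  have h3 : ((a • ee 0 1 + b • ee 1 1 + phiG ⟨h, hh⟩ : GG) : GG ⧸ phiG.range) =
      a • x + b • y + ((phiG ⟨h, hh⟩ : GG) : GG ⧸ phiG.range) := rfl
  rw [h3, h2, add_zero]

/-- There are a torsion-free Hopfian abelian group `G` and an endomorphism `φ` of `G` with finite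
cokernel which is not injective. -/
theorem result :
    ∃ (G : Type) (_ : AddCommGroup G),
      (∀ (n : ℤ) (x : G), n ≠ 0 → n • x = 0 → x = 0) ∧
      (∀ s : G →+ G, Function.Surjective s → Function.Injective s) ∧
      ∃ φ : G →+ G, Finite (G ⧸ φ.range) ∧ φ.ker ≠ ⊥ := by
  refine ⟨GG, inferInstance, torsion_free, hopfian, phiG, finite_coker, ?_⟩
  intro h
  exact not_injective ((AddMonoidHom.ker_eq_bot_iff phiG).1 h)

end Pool.Agent.Results.MP_f7162b_al.HopfianNotCofinitelyInjective
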